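import Mathlib

/-!
Definitions: groups of circle diffeomorphisms, limit sets, discreteness, local discreteness.
-/

namespace Pool.Agent.Y329.CircleGroups

open Filter Topology MeasureTheory Set

/-- The group of homeomorphisms of the circle `ℝ/ℤ`. -/
abbrev HomeoC := UnitAddCircle ≃ₜ UnitAddCircle

/-- `F : ℝ → ℝ` is a lift of the circle homeomorphism `g`. -/
def IsLift (F : ℝ → ℝ) (g : HomeoC) : Prop :=
  Continuous F ∧ ∀ x : ℝ, ((F x : ℝ) : UnitAddCircle) = g (x : UnitAddCircle)

/-- `g` is of class `C^k`: it has a lift of class `C^k`. -/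
def IsCk (k : ℕ∞) (g : HomeoC) : Prop := ∃ F : ℝ → ℝ, IsLift F g ∧ ContDiff ℝ k F

/-- `G` is a group of `C^k` diffeomorphisms of the circle: all its elements (hence also all
inverses of its elements) are of class `C^k`. -/
def InDiff (k : ℕ∞) (G : Subgroup HomeoC) : Prop := ∀ g ∈ G, IsCk k g

/-- No probability measure on the circle is `G`-invariant. -/
def NonElementary (G : Subgroup HomeoC) : Prop :=
  ¬ ∃ μ : Measure UnitAddCircle, IsProbabilityMeasure μ ∧ ∀ g ∈ G, μ.map g = μ

/-- `Λ` is a nonempty compact invariant set in which every `G`-orbit is dense. -/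
def IsLimitSet (G : Subgroup HomeoC) (Λ : Set UnitAddCircle) : Prop :=
  Λ.Nonempty ∧ IsCompact Λ ∧ (∀ g ∈ G, g '' Λ = Λ) ∧
    ∀ x ∈ Λ, Λ ⊆ closure {y | ∃ g ∈ G, g x = y}

/-- The closed arc of the circle which is the image of the interval `[a, b]`. -/
def arc (a b : ℝ) : Set UnitAddCircle := (fun x : ℝ => (x : UnitAddCircle)) '' Icc a b

/-- The sequence `g` converges to the identity in the `C^l` topology on (the image in the circle
of) the set `A` of real numbers: for suitable lifts `F n` of class `C^l` of `g n`, the functions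
`F n - id` and their derivatives of order `≤ l` tend to `0` uniformly on `A`. -/
def TendsToId (l : ℕ∞) (g : ℕ → HomeoC) (A : Set ℝ) : Prop :=
  ∃ F : ℕ → ℝ → ℝ, (∀ n, IsLift (F n) (g n) ∧ ContDiff ℝ l (F n)) ∧
    ∀ i : ℕ, (i : ℕ∞) ≤ l →
      TendstoUniformlyOn (fun n x => iteratedDeriv i (fun y => F n y - y) x) (fun _ => 0) atTop A

/-- `G` is discrete in the `C^l` topology. -/
def DiscreteIn (l : ℕ∞) (G : Subgroup HomeoC) : Prop :=
  ∀ g : ℕ → HomeoC, (∀ n, g n ∈ G) → TendsToId l g Set.univ → ∀ᶠ n in atTop, g n = 1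

/-- `G` is locally discrete in the `C^l` topology: its limit set is covered by arcs `I` such that
every sequence in `G` converging to the identity in the `C^l` topology on `I` eventually restricts
to the identity of `I`. (Arcs are proper, non-degenerate closed arcs.) -/
def LocallyDiscreteIn (l : ℕ∞) (G : Subgroup HomeoC) : Prop :=
  ∃ Λ : Set UnitAddCircle, IsLimitSet G Λ ∧ ∃ I : Set (ℝ × ℝ),
    (∀ J ∈ I, J.1 < J.2 ∧ J.2 < J.1 + 1) ∧ (Λ ⊆ ⋃ J ∈ I, arc J.1 J.2) ∧
    ∀ J ∈ I, ∀ g : ℕ → HomeoC, (∀ n, g n ∈ G) → TendsToId l g (Icc J.1 J.2) →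
      ∀ᶠ n in atTop, ∀ x ∈ arc J.1 J.2, g n x = x

end Pool.Agent.Y329.CircleGroups
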