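import Pool.Agent.Y649.ETR.Stm

/-!
# ETR-BLK: the imprimitive two-class schemes
-/

set_option autoImplicit false
set_option linter.unusedSectionVars false

namespace Pool.Agent.Y329.ETRBlk

open Finset Pool.Agent.Results.MP_44674b_co.WreathExact Pool.Agent.Y649.ETR

variable {X : Type} [Fintype X] [DecidableEq X]

theorem three {i j : Fin (2 + 1)} (hi : i ≠ 0) (hj : j ≠ 0) (hij : i ≠ j) (k : Fin (2 + 1)) :
    k = 0 ∨ k = i ∨ k = j := by
  revert i j k
  decide

theorem fin3 (m : Fin (2 + 1)) : m = 0 ∨ m = 1 ∨ m = 2 := by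
  revert m
  decide

theorem imprim : S_IMPRIM := by
  classical
  intro X _ _ S hS
  simp only [Prim2, not_forall, not_exists, not_and] at hS
  obtain ⟨i, j, hi, hj, hij, h⟩ := hS
  -- the equivalence relation
  have hrefl : ∀ x, S.c x x ≠ j := fun x => by
    rw [(S.diag x x).mpr rfl]
    exact hj.symm
  have hsymm : ∀ {x y}, S.c x y ≠ j → S.c y x ≠ j := fun {x y} hxy => by
    rwa [S.symm]
  have htrans : ∀ {x y z}, S.c x y ≠ j → S.c y z ≠ j → S.c x z ≠ j := fun {x y z} h1 h2 => by
    rcases three hi hj hij (S.c x y) with h3 | h3 | h3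
    · rw [S.diag] at h3
      subst h3
      exact h2
    · rcases three hi hj hij (S.c y z) with h4 | h4 | h4
      · rw [S.diag] at h4
        subst h4
        exact h1
      · exact h x y z h3 h4
      · exact absurd h4 h2
    · exact absurd h3 h1
  let s : Setoid X := ⟨fun x y => S.c x y ≠ j, hrefl, hsymm, htrans⟩
  have hs : ∀ x y, (Quotient.mk s x = Quotient.mk s y) ↔ S.c x y ≠ j := fun x y =>
    ⟨fun h1 => Quotient.exact h1, fun h1 => Quotient.sound h1⟩
  obtain ⟨x0, y0, hxy0⟩ := S.surj i
  obtain ⟨x1, y1, hxy1⟩ := S.surj j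
  -- the classes have the same size
  have hval : ∀ x, (univ.filter fun y => S.c x y = j).card =
      (univ.filter fun y => S.c x0 y = j).card := by
    intro x
    have h1 := S.regular j j x x x0 x0 (by rw [(S.diag x x).mpr rfl, (S.diag x0 x0).mpr rfl])
    simpa only [S.symm _ x, S.symm _ x0, and_self] using h1
  set a : ℕ := (univ.filter fun y => S.c x0 y ≠ j).card with ha
  have hcard : ∀ x, (univ.filter fun y => S.c x y ≠ j).card = a := by
    intro x
    have h1 := Finset.card_filter_add_card_filter_not (s := (univ : Finset X))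
      (fun y => S.c x y = j)
    have h2 := Finset.card_filter_add_card_filter_not (s := (univ : Finset X))
      (fun y => S.c x0 y = j)
    have h3 := hval x
    simp only [ne_eq] at ha ⊢
    omega
  have hcl : ∀ q : Quotient s, Fintype.card {x // Quotient.mk s x = q} = a := by
    intro q
    induction q using Quotient.inductionOn with
    | h x =>
      rw [Fintype.card_subtype, ← hcard x]
      congr 1
      apply Finset.filter_congr
      intro y _
      rw [hs, S.symm]
  set b : ℕ := Fintype.card (Quotient s) with hb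
  let e : Quotient s ≃ Fin b := Fintype.equivFin _
  let f1 : X ≃ Σ q : Quotient s, {x // Quotient.mk s x = q} :=
    (Equiv.sigmaFiberEquiv (Quotient.mk s)).symm
  let f2 : (Σ q : Quotient s, {x // Quotient.mk s x = q}) ≃ Σ _ : Quotient s, Fin a :=
    Equiv.sigmaCongrRight fun q => Fintype.equivFinOfCardEq (hcl q)
  let f3 : (Σ _ : Quotient s, Fin a) ≃ Quotient s × Fin a := Equiv.sigmaEquivProd _ _
  let f4 : Quotient s × Fin a ≃ Fin b × Fin a := Equiv.prodCongr e (Equiv.refl _)
  let f5 : Fin b × Fin a ≃ Fin a × Fin b := Equiv.prodComm _ _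
  let f : X ≃ Fin a × Fin b := f1.trans (f2.trans (f3.trans (f4.trans f5)))
  have hf : ∀ x, (f x).2 = e (Quotient.mk s x) := fun x => rfl
  refine ⟨i, a, b, hi, ?_, ?_, f, ?_⟩
  · -- `a ≥ 2`
    have hne : x0 ≠ y0 := by
      rintro rfl
      rw [(S.diag x0 x0).mpr rfl] at hxy0
      exact hi hxy0.symm
    rw [ha]
    have h1 : ({x0, y0} : Finset X) ⊆ univ.filter fun y => S.c x0 y ≠ j := by
      intro z hz
      rw [Finset.mem_insert, Finset.mem_singleton] at hz
      rw [Finset.mem_filter]
      refine ⟨Finset.mem_univ _, ?_⟩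
      rcases hz with rfl | rfl
      · exact hrefl _
      · rw [hxy0]
        exact hij
    calc 2 = ({x0, y0} : Finset X).card := (Finset.card_pair hne).symm
      _ ≤ _ := Finset.card_le_card h1
  · -- `b ≥ 2`
    rw [hb]
    apply Fintype.one_lt_card_iff.mpr
    refine ⟨Quotient.mk s x1, Quotient.mk s y1, ?_⟩
    intro h1
    exact (hs x1 y1).mp h1 hxy1
  · intro x y hxy
    rw [hf, hf, e.apply_eq_iff_eq, hs]
    constructor
    · intro h1
      rw [h1]
      exact hij
    · intro h1
      rcases three hi hj hij (S.c x y) with h2 | h2 | h2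
      · exact absurd ((S.diag x y).mp h2) hxy
      · exact h2
      · exact absurd h2 h1

/-- blocks given by the relation `1` -/
theorem blocks_one (hU : S_ULTRA) (S : SymScheme X 2) (a b : ℕ) (hB : Blocks S 1 a b) :
    S.ExactlyTriplyRegular ∧ (S.FormallySelfDual ↔ a = b) := by
  obtain ⟨-, ha, hb, f, hf⟩ := hB
  have e0 : ∀ x y, S.c x y ≤ 0 ↔ x = y := fun x y => by
    rw [Fin.le_zero_iff, S.diag]
  have e1 : ∀ x y, S.c x y ≤ 1 ↔ (f x).2 = (f y).2 := by
    intro x y
    by_cases hxy : x = y
    · subst hxy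
      rw [(S.diag x x).mpr rfl]
      simp
    · rw [← hf x y hxy]
      have h0 : S.c x y ≠ 0 := fun h => hxy ((S.diag x y).mp h)
      generalize S.c x y = k at h0
      revert k
      decide
  have e2 : ∀ x y, S.c x y ≤ 2 := fun x y => Fin.le_last _
  have b0 : ∀ x, (univ.filter fun y => S.c x y ≤ 0).card = 1 := by
    intro x
    have : (univ.filter fun y => S.c x y ≤ 0) = {x} := by
      ext y
      simp [e0, eq_comm]
    rw [this, Finset.card_singleton]
  have b1 : ∀ x, (univ.filter fun y => S.c x y ≤ 1).card = a := by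
    intro x
    have h1 : (univ.filter fun y => S.c x y ≤ 1).card =
        ((univ : Finset (Fin a)).map ⟨fun t => f.symm (t, (f x).2), fun t t' h => by
          have := f.symm.injective h
          exact (Prod.mk.inj this).1⟩).card := by
      congr 1
      ext y
      simp only [Finset.mem_filter, Finset.mem_univ, true_and, Finset.mem_map]
      rw [e1]
      constructor
      · intro h
        refine ⟨(f y).1, ?_⟩
        rw [h]
        exact f.symm_apply_apply y
      · rintro ⟨t, rfl⟩
        change (f x).2 = (f (f.symm (t, (f x).2))).2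
        rw [f.apply_symm_apply]
    rw [h1, Finset.card_map, Finset.card_univ, Fintype.card_fin]
  have hX : Fintype.card X = a * b := by
    rw [Fintype.card_congr f, Fintype.card_prod, Fintype.card_fin, Fintype.card_fin]
  have b2 : ∀ x, (univ.filter fun y => S.c x y ≤ 2).card = a * b := by
    intro x
    rw [Finset.filter_true_of_mem fun y _ => e2 x y, Finset.card_univ, hX]
  have h : Ultra S.c := by
    refine ⟨S.diag, S.symm, ?_, ?_⟩
    · intro x y z
      have key : ∀ m : Fin (2 + 1), S.c x y ≤ m → S.c y z ≤ m → S.c x z ≤ m := by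
        intro m h1 h2
        rcases fin3 m with rfl | rfl | rfl
        · rw [e0] at h1 h2 ⊢
          exact h1.trans h2
        · rw [e1] at h1 h2 ⊢
          exact h1.trans h2
        · exact e2 x z
      exact key _ (le_max_left _ _) (le_max_right _ _)
    · intro m x x'
      rcases fin3 m with rfl | rfl | rfl
      · rw [b0, b0]
      · rw [b1, b1]
      · rw [b2, b2]
  obtain ⟨x0, -, -⟩ := S.surj 0
  have hSS : h.scheme S.surj = S := rfl
  refine ⟨h.exact S.surj, ?_⟩
  have h1 := hU X 2 S.c h S.surj x0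
  rw [hSS] at h1
  rw [h1]
  constructor
  · intro h2
    have h3 := h2 1
    have h4 : Fin.rev (1 : Fin (2 + 1)) = 1 := rfl
    rw [h4, bsize, b1, hX] at h3
    exact Nat.eq_of_mul_eq_mul_left (by omega) h3
  · rintro rfl
    intro m
    rcases fin3 m with rfl | rfl | rfl
    · have h4 : Fin.rev (0 : Fin (2 + 1)) = 2 := rfl
      rw [h4, bsize, bsize, b0, b2, hX, one_mul]
    · have h4 : Fin.rev (1 : Fin (2 + 1)) = 1 := rfl
      rw [h4, bsize, b1, hX]
    · have h4 : Fin.rev (2 : Fin (2 + 1)) = 0 := rfl
      rw [h4, bsize, bsize, b0, b2, hX, mul_one]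

/-- the scheme with the relations `1` and `2` exchanged -/
def swapS (S : SymScheme X 2) : SymScheme X 2 where
  c := fun x y => Equiv.swap (1 : Fin (2 + 1)) 2 (S.c x y)
  surj := by
    intro i
    obtain ⟨x, y, h⟩ := S.surj (Equiv.swap (1 : Fin (2 + 1)) 2 i)
    exact ⟨x, y, by rw [h, Equiv.swap_apply_self]⟩
  diag := by
    intro x y
    rw [Equiv.swap_apply_eq_iff, ← S.diag]
    rfl
  symm := by
    intro x y
    rw [S.symm]
  regular := by
    intro i j x y x' y' h
    simp only [Equiv.swap_apply_eq_iff]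
    exact S.regular _ _ _ _ _ _ ((Equiv.swap (1 : Fin (2 + 1)) 2).injective h)

theorem blocks (hU : S_ULTRA) (hR : S_RELABEL) : S_BLOCKS := by
  intro X _ _ S i a b hB
  have hi : i = 1 ∨ i = 2 := (fin3 i).resolve_left hB.1
  rcases hi with rfl | rfl
  · exact blocks_one hU S a b hB
  · obtain ⟨-, ha, hb, f, hf⟩ := hB
    have hB' : Blocks (swapS S) 1 a b := by
      refine ⟨by decide, ha, hb, f, ?_⟩
      intro x y hxy
      rw [← hf x y hxy]
      change Equiv.swap (1 : Fin (2 + 1)) 2 (S.c x y) = 1 ↔ _
      rw [Equiv.swap_apply_eq_iff, Equiv.swap_apply_left]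
    obtain ⟨h1, h2⟩ := blocks_one hU (swapS S) a b hB'
    have r1 := hR X 2 (swapS S) S (Equiv.swap 1 2) (fun x y => by
      change S.c x y = Equiv.swap (1 : Fin (2 + 1)) 2 (Equiv.swap (1 : Fin (2 + 1)) 2 (S.c x y))
      rw [Equiv.swap_apply_self])
    have r2 := hR X 2 S (swapS S) (Equiv.swap 1 2) (fun x y => rfl)
    exact ⟨r1.1 h1, ⟨fun h => h2.mp (r2.2 h), fun h => r1.2 (h2.mpr h)⟩⟩

end Pool.Agent.Y329.ETRBlk
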